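import Pool.Agent.V8H64.Ck.Chk
import Pool.Agent.N496.LT.Stm2

/-!
# Correctness of the checker
-/

set_option autoImplicit false

namespace Pool.Agent.V8H64.Ck

open Pool.Agent.N496.LT (sd)

noncomputable section

theorem force_eq (n : ℕ) (c : ℕ → Bool) : force n c = c n := by
  cases n <;> rfl

/-- the trees with `2 ^ k` leaves -/
def ShD : ℕ → Tr → Prop
  | 0, Tr.L _ => True
  | k + 1, Tr.N w pw l r => w = 2 ^ k ∧ pw = 2 ^ w ∧ ShD k l ∧ ShD k r
  | _, _ => False

/-- the direct form of `togC` -/
def tog (b : ℕ) : Tr → ℕ → Tr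
  | Tr.L v, ch => if ch = 0 then Tr.L v else Tr.L (v ^^^ b)
  | Tr.N w pw l r, ch => if ch = 0 then Tr.N w pw l r else Tr.N w pw (tog b l (ch % pw)) (tog b r (ch >>> w))

theorem beq_zero (ch : ℕ) : Nat.beq ch 0 = decide (ch = 0) := by
  by_cases h : ch = 0
  · subst h; rfl
  · rw [decide_eq_false h]
    cases ch with
    | zero => exact absurd rfl h
    | succ n => rfl

theorem togC_eq (b : ℕ) (t : Tr) : ∀ (ch : ℕ) (c : Tr → Bool), togC b t ch c = c (tog b t ch) := by
  induction t with
  | L v =>
    intro ch c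
    change @Bool.rec (fun _ => Bool) (force (Nat.xor v b) fun v' => c (Tr.L v')) (c (Tr.L v)) (Nat.beq ch 0) = _
    rw [beq_zero, force_eq]
    unfold tog
    by_cases h : ch = 0
    · rw [decide_eq_true h, if_pos h]
    · rw [decide_eq_false h, if_neg h]
      rfl
  | N w pw l r il ir =>
    intro ch c
    change @Bool.rec (fun _ => Bool) (togC b l (Nat.mod ch pw) fun l' => togC b r (Nat.shiftRight ch w) fun r' =>
      c (Tr.N w pw l' r')) (c (Tr.N w pw l r)) (Nat.beq ch 0) = _
    rw [beq_zero, il, ir]
    rw [tog]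
    by_cases h : ch = 0
    · rw [decide_eq_true h, if_pos h]
    · rw [decide_eq_false h, if_neg h]
      rfl

theorem get_L (v i : ℕ) : get (Tr.L v) i = v := rfl

theorem get_N (w pw : ℕ) (l r : Tr) (i : ℕ) : get (Tr.N w pw l r) i = if w ≤ i then get r (i - w) else get l i := by
  change @Bool.rec (fun _ => ℕ) (get l i) (get r (Nat.sub i w)) (Nat.ble w i) = _
  by_cases h : w ≤ i
  · rw [if_pos h, Nat.ble_eq_true_of_le h]
    rfl
  · rw [if_neg h]
    have : Nat.ble w i = false := by
      cases h1 : Nat.ble w i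
      · rfl
      · exact absurd (Nat.le_of_ble_eq_true h1) h
    rw [this]

theorem sh_tog (b k : ℕ) (t : Tr) (h : ShD k t) : ∀ ch, ShD k (tog b t ch) := by
  induction k generalizing t with
  | zero =>
    intro ch
    cases t with
    | L v =>
      unfold tog
      split_ifs <;> trivial
    | N w pw l r => exact h.elim
  | succ k ih =>
    intro ch
    cases t with
    | L v => exact h.elim
    | N w pw l r =>
      obtain ⟨h1, h2, h3, h4⟩ := h
      rw [tog]
      split_ifs
      · exact ⟨h1, h2, h3, h4⟩
      · exact ⟨h1, h2, ih l h3 _, ih r h4 _⟩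

theorem get_tog (b k : ℕ) (t : Tr) (h : ShD k t) : ∀ ch i, ch < 2 ^ 2 ^ k → i < 2 ^ k →
    get (tog b t ch) i = if ch.testBit i then get t i ^^^ b else get t i := by
  induction k generalizing t with
  | zero =>
    intro ch i hch hi
    cases t with
    | L v =>
      have hi0 : i = 0 := by simpa using hi
      subst hi0
      have hch' : ch = 0 ∨ ch = 1 := by
        have : ch < 2 := by simpa using hch
        omega
      rcases hch' with h | h <;> subst h <;> simp [tog, get_L]
    | N w pw l r => exact h.elim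
  | succ k ih =>
    intro ch i hch hi
    cases t with
    | L v => exact h.elim
    | N w pw l r =>
      obtain ⟨h1, h2, h3, h4⟩ := h
      subst h2 h1
      rw [tog]
      by_cases h0 : ch = 0
      · subst h0
        simp
      rw [if_neg h0, get_N, get_N]
      by_cases hw : 2 ^ k ≤ i
      · rw [if_pos hw, if_pos hw, ih r h4]
        · have : (ch >>> 2 ^ k).testBit (i - 2 ^ k) = ch.testBit i := by
            rw [Nat.testBit_shiftRight]
            congr 1
            omega
          rw [this]
        · rw [Nat.shiftRight_eq_div_pow]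
          apply Nat.div_lt_of_lt_mul
          rw [← pow_add]
          convert hch using 2
          rw [pow_succ]
          omega
        · rw [pow_succ] at hi
          omega
      · rw [if_neg hw, if_neg hw, ih l h3]
        · have : (ch % 2 ^ 2 ^ k).testBit i = ch.testBit i := by
            rw [Nat.testBit_mod_two_pow]
            have : i < 2 ^ k := by omega
            simp [this]
          rw [this]
        · exact Nat.mod_lt _ (by positivity)
        · omega

/-! ### the rows -/

/-- the rows of a state, zero beyond the size -/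
def rho (k : ℕ) (T : Tr) (i : ℕ) : ℕ := if i < 2 ^ k then get T i else 0

/-- the invariants -/
structure Wf (ρ : ℕ → ℕ) : Prop where
  sym : ∀ i j, (ρ i).testBit j = true → (ρ j).testBit i = true
  irr : ∀ i, (ρ i).testBit i = false

/-- the graph of the rows -/
def gr (ρ : ℕ → ℕ) : SimpleGraph ℕ where
  Adj i j := i ≠ j ∧ (ρ i).testBit j = true ∧ (ρ j).testBit i = true
  symm := ⟨fun _ _ h => ⟨h.1.symm, h.2.2, h.2.1⟩⟩
  loopless := ⟨fun _ h => h.1 rfl⟩

theorem gr_adj {ρ : ℕ → ℕ} (h : Wf ρ) (i j : ℕ) : (gr ρ).Adj i j ↔ (ρ i).testBit j = true := by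
  constructor
  · exact fun h1 => h1.2.1
  · intro h1
    refine ⟨?_, h1, h.sym _ _ h1⟩
    rintro rfl
    rw [h.irr] at h1
    exact absurd h1 (by decide)

variable (P : ∀ n : ℕ, SimpleGraph (Fin n) → Prop)

/-- the property for the graph on the set of the nonzero rows -/
def PN (ρ : ℕ → ℕ) : Prop := ∃ (n : ℕ) (φ : Fin n → ℕ), Function.Injective φ ∧ (∀ i, ρ i ≠ 0 ↔ i ∈ Set.range φ) ∧
    P n ((gr ρ).comap φ)

/-- closed under the three operations -/
structure Cl : Prop where
  sub : ∀ (n : ℕ) (G : SimpleGraph (Fin n)) (s t : Fin n), G.Adj s t → P n G → P (n + 1) (sd G s t)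
  inv : ∀ (n : ℕ) (G : SimpleGraph (Fin n)) (s t : Fin n), G.Adj s t → P (n + 1) (sd G s t) → P n G
  rel : ∀ (n : ℕ) (G : SimpleGraph (Fin n)) (σ : Equiv.Perm (Fin n)), P n G → P n (G.comap σ)

/-- the new rows -/
def chR (s t m R : ℕ) (ρ : ℕ → ℕ) (i : ℕ) : ℕ :=
  ρ i ^^^ (if R.testBit i then 2 ^ m else 0) ^^^ (if i = s then 2 ^ t else 0) ^^^ (if i = t then 2 ^ s else 0) ^^^
    (if i = m then R else 0)

theorem chR_bit (s t m R : ℕ) (ρ : ℕ → ℕ) (i j : ℕ) : (chR s t m R ρ i).testBit j =
    (((((ρ i).testBit j ^^ (R.testBit i && decide (j = m))) ^^ (decide (i = s) && decide (j = t))) ^^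
      (decide (i = t) && decide (j = s))) ^^ (decide (i = m) && R.testBit j)) := by
  unfold chR
  rw [Nat.testBit_xor, Nat.testBit_xor, Nat.testBit_xor, Nat.testBit_xor]
  have e1 : (if R.testBit i then 2 ^ m else 0).testBit j = (R.testBit i && decide (j = m)) := by
    cases R.testBit i
    · simp
    · simp [Nat.testBit_two_pow, eq_comm]
  have e2 : ∀ a b : ℕ, (if i = a then 2 ^ b else 0).testBit j = (decide (i = a) && decide (j = b)) := by
    intro a b
    by_cases h : i = a
    · simp [h, Nat.testBit_two_pow, eq_comm]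
    · simp [h]
  have e3 : (if i = m then R else 0).testBit j = (decide (i = m) && R.testBit j) := by
    by_cases h : i = m
    · simp [h]
    · simp [h]
  rw [e1, e2, e2, e3]

theorem Wf.chR {ρ : ℕ → ℕ} (h : Wf ρ) {s t m R : ℕ} (hst : s ≠ t) : Wf (chR s t m R ρ) := by
  have hs : ∀ i j, (ρ i).testBit j = (ρ j).testBit i := by
    intro i j
    rw [Bool.eq_iff_iff]
    exact ⟨h.sym i j, h.sym j i⟩
  constructor
  · intro i j h1
    rw [chR_bit] at h1 ⊢
    rw [← h1, hs j i]
    generalize (ρ i).testBit j = A
    generalize R.testBit i = B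
    generalize R.testBit j = C
    generalize decide (i = s) = D
    generalize decide (j = t) = E
    generalize decide (i = t) = F
    generalize decide (j = s) = K
    generalize decide (i = m) = L
    generalize decide (j = m) = M
    revert A B C D E F K L M
    decide
  · intro i
    rw [chR_bit, h.irr]
    have h1 : (decide (i = s) && decide (i = t)) = false := by
      by_cases h2 : i = s
      · subst h2
        simp [hst]
      · simp [h2]
    have h2 : (decide (i = t) && decide (i = s)) = false := by rw [Bool.and_comm, h1]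
    rw [h1, h2]
    generalize R.testBit i = B
    generalize decide (i = m) = L
    revert B L
    decide

/-- the effect of the change on the rows -/
theorem rho_chg {k : ℕ} {T : Tr} (hT : ShD k T) {s t m R : ℕ} (hs : s < 2 ^ k) (ht : t < 2 ^ k) (hm : m < 2 ^ k)
    (hR : R < 2 ^ 2 ^ k) (c : Tr → Bool) (h : chg s t m R T c = true) :
    ∃ T', ShD k T' ∧ rho k T' = chR s t m R (rho k T) ∧ c T' = true := by
  unfold chg at h
  rw [force_eq, force_eq, force_eq, togC_eq, togC_eq, togC_eq, togC_eq] at h
  have hp : ∀ x, x < 2 ^ k → Nat.shiftLeft 1 x < 2 ^ 2 ^ k := by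
    intro x hx
    change 1 <<< x < _
    rw [Nat.one_shiftLeft]
    exact Nat.pow_lt_pow_right (by norm_num) hx
  have h1 := sh_tog (Nat.shiftLeft 1 m) k T hT R
  have h2 := sh_tog (Nat.shiftLeft 1 t) k _ h1 (Nat.shiftLeft 1 s)
  have h3 := sh_tog (Nat.shiftLeft 1 s) k _ h2 (Nat.shiftLeft 1 t)
  have h4 := sh_tog R k _ h3 (Nat.shiftLeft 1 m)
  refine ⟨_, h4, ?_, h⟩
  funext i
  unfold rho chR
  by_cases hi : i < 2 ^ k
  · simp only [if_pos hi]
    rw [get_tog _ k _ h3 _ i (hp m hm) hi, get_tog _ k _ h2 _ i (hp t ht) hi, get_tog _ k _ h1 _ i (hp s hs) hi,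
      get_tog _ k _ hT _ i hR hi]
    have e : ∀ x, (Nat.shiftLeft 1 x).testBit i = decide (i = x) := by
      intro x
      change (1 <<< x).testBit i = _
      rw [Nat.one_shiftLeft, Nat.testBit_two_pow]
      simp [eq_comm]
    have e' : ∀ x, Nat.shiftLeft 1 x = 2 ^ x := fun x => Nat.one_shiftLeft x
    rw [e, e, e, e', e', e']
    simp only [decide_eq_true_eq]
    split_ifs <;> simp
  · simp only [if_neg hi]
    have hRi : R.testBit i = false := by
      apply Nat.testBit_lt_two_pow
      exact hR.trans_le (Nat.pow_le_pow_right (by norm_num) (by omega))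
    have h5 : i ≠ s := by omega
    have h6 : i ≠ t := by omega
    have h7 : i ≠ m := by omega
    simp [hRi, h5, h6, h7]

theorem bit_eq (n i : ℕ) : bit n i = n.testBit i := by
  unfold bit
  change Nat.beq ((n >>> i) &&& 1) 1 = n.testBit i
  rw [Nat.testBit, Nat.and_comm]
  rcases Nat.mod_two_eq_zero_or_one (n >>> i) with h | h
  · have : 1 &&& n >>> i = 0 := by rw [Nat.one_and_eq_mod_two, h]
    rw [this]
    rfl
  · have : 1 &&& n >>> i = 1 := by rw [Nat.one_and_eq_mod_two, h]
    rw [this]
    rfl

theorem rec_true {a c : Bool} (h : @Bool.rec (fun _ => Bool) false a c = true) : c = true ∧ a = true := by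
  cases c
  · exact absurd (show false = true from h) (by decide)
  · exact ⟨rfl, h⟩

theorem ble_lt {a b : ℕ} (h : Nat.ble (Nat.succ a) b = true) : a < b := Nat.le_of_ble_eq_true h

variable {P}

/-- a finite set of bits -/
theorem wf_lt {ρ : ℕ → ℕ} (h : Wf ρ) {k : ℕ} (h0 : ∀ i, 2 ^ k ≤ i → ρ i = 0) (i : ℕ) : ρ i < 2 ^ 2 ^ k := by
  apply Nat.lt_pow_two_of_testBit
  intro j hj
  by_contra h1
  rw [Bool.not_eq_false] at h1
  have := h.sym _ _ h1
  rw [h0 j hj] at this
  simp at this

theorem PN_sub (hP : Cl P) {ρ : ℕ → ℕ} (h : Wf ρ) {s t m R : ℕ} (hst : (ρ s).testBit t = true) (hm : ρ m = 0)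
    (hR : ∀ x, R.testBit x = (((ρ s).testBit x && (ρ t).testBit x) || (decide (x = s) || decide (x = t))))
    (hρ : PN P ρ) : PN P (chR s t m R ρ) := by
  obtain ⟨n, φ, hφ, hran, hPn⟩ := hρ
  have hts := h.sym _ _ hst
  have hs0 : ρ s ≠ 0 := by
    intro h0
    rw [h0] at hst
    simp at hst
  have ht0 : ρ t ≠ 0 := by
    intro h0
    rw [h0] at hts
    simp at hts
  have hms : m ≠ s := fun h1 => hs0 (h1 ▸ hm)
  have hmt : m ≠ t := fun h1 => ht0 (h1 ▸ hm)
  have hstne : s ≠ t := by
    rintro rfl
    rw [h.irr] at hst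
    exact absurd hst (by decide)
  have hbm : ∀ i, (ρ i).testBit m = false := by
    intro i
    by_contra h1
    rw [Bool.not_eq_false] at h1
    have := h.sym _ _ h1
    rw [hm] at this
    simp at this
  have hRm : R.testBit m = false := by
    rw [hR, hbm]
    simp [hms, hmt]
  have hwf' := h.chR (m := m) (R := R) hstne
  obtain ⟨s', hs'⟩ := (hran s).1 hs0
  obtain ⟨t', ht'⟩ := (hran t).1 ht0
  have hφm : ∀ i, φ i ≠ m := by
    intro i h1
    have := (hran (φ i)).2 ⟨i, rfl⟩
    rw [h1] at this
    exact this hm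
  -- the new adjacency
  have a1 : ∀ i j, i ≠ m → j ≠ m → (chR s t m R ρ i).testBit j =
      ((ρ i).testBit j && !((decide (i = s) && decide (j = t)) || (decide (i = t) && decide (j = s)))) := by
    intro i j hi hj
    rw [chR_bit, decide_eq_false hi, decide_eq_false hj]
    by_cases e1 : i = s
    · subst e1
      by_cases e2 : j = t
      · subst e2
        simp [hst, hstne]
      · simp [e2, hstne]
    · by_cases e2 : i = t
      · subst e2
        by_cases e3 : j = s
        · subst e3
          simp [hts, e1]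
        · simp [e3, e1]
      · simp [e1, e2]
  have a2 : ∀ j, j ≠ m → (chR s t m R ρ m).testBit j = R.testBit j := by
    intro j hj
    rw [chR_bit, hm, decide_eq_false hms, decide_eq_false hmt, decide_eq_false hj]
    simp
  refine ⟨n + 1, Fin.lastCases (motive := fun _ => ℕ) m φ, ?_, ?_, ?_⟩
  · intro x y
    refine Fin.lastCases ?_ (fun x => ?_) x
    · refine Fin.lastCases (fun _ => rfl) (fun y => ?_) y
      rw [Fin.lastCases_last, Fin.lastCases_castSucc]
      intro h1
      exact absurd h1.symm (hφm y)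
    · refine Fin.lastCases ?_ (fun y => ?_) y
      · rw [Fin.lastCases_last, Fin.lastCases_castSucc]
        intro h1
        exact absurd h1 (hφm x)
      · rw [Fin.lastCases_castSucc, Fin.lastCases_castSucc]
        intro h1
        rw [hφ h1]
  · intro i
    have hne : ∀ (r j : ℕ), r.testBit j = true → r ≠ 0 := by
      intro r j h1 h2
      rw [h2] at h1
      simp at h1
    have hran' : i ∈ Set.range (Fin.lastCases (motive := fun _ => ℕ) m φ : Fin (n + 1) → ℕ) ↔
        i = m ∨ i ∈ Set.range φ := by
      constructor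
      · rintro ⟨x, hx⟩
        revert hx
        refine Fin.lastCases ?_ (fun x => ?_) x
        · rw [Fin.lastCases_last]
          exact fun h1 => Or.inl h1.symm
        · rw [Fin.lastCases_castSucc]
          exact fun h1 => Or.inr ⟨x, h1⟩
      · rintro (h1 | ⟨x, hx⟩)
        · exact ⟨Fin.last n, by rw [Fin.lastCases_last, h1]⟩
        · exact ⟨Fin.castSucc x, by rw [Fin.lastCases_castSucc, hx]⟩
    rw [hran', ← hran]
    by_cases him : i = m
    · subst him
      simp only [true_or, iff_true]
      apply hne _ s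
      rw [a2 s (Ne.symm hms), hR]
      simp
    · simp only [him, false_or]
      have hmi := chR_bit s t m R ρ i m
      rw [hbm, decide_eq_false him, decide_eq_false hms, decide_eq_false hmt] at hmi
      simp only [Bool.false_xor, decide_true, Bool.and_true, Bool.and_false, Bool.xor_false, Bool.false_and] at hmi
      constructor
      · intro h1 h2
        apply h1
        -- the row stays zero
        apply Nat.eq_of_testBit_eq
        intro j
        rw [Nat.zero_testBit]
        by_cases hj : j = m
        · subst hj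
          rw [hmi, hR]
          have e1 : (ρ s).testBit i = false := by
            by_contra h3
            rw [Bool.not_eq_false] at h3
            have := h.sym _ _ h3
            rw [h2] at this
            simp at this
          have e2 : i ≠ s := fun h3 => hs0 (h3 ▸ h2)
          have e3 : i ≠ t := fun h3 => ht0 (h3 ▸ h2)
          simp [e1, e2, e3]
        · rw [a1 i j him hj, h2]
          simp
      · intro h1
        by_cases hRi : R.testBit i = true
        · exact hne _ m (hmi.trans hRi)
        · rw [Bool.not_eq_true] at hRi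
          have e2 : i ≠ s := by
            rintro rfl
            rw [hR] at hRi
            simp at hRi
          have e3 : i ≠ t := by
            rintro rfl
            rw [hR] at hRi
            simp at hRi
          unfold chR
          simp [hRi, e2, e3, him, h1]
  · have e : (gr (chR s t m R ρ)).comap (Fin.lastCases (motive := fun _ => ℕ) m φ : Fin (n + 1) → ℕ) =
        sd ((gr ρ).comap φ) s' t' := by
      have b1 : ∀ x y : Fin n, (gr (chR s t m R ρ)).Adj (φ x) (φ y) ↔
          (gr ρ).Adj (φ x) (φ y) ∧ s(x, y) ≠ s(s', t') := by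
        intro x y
        rw [gr_adj hwf', gr_adj h, a1 _ _ (hφm x) (hφm y), Bool.and_eq_true, ← hs', ← ht']
        refine and_congr_right fun _ => ?_
        rw [Ne, Sym2.eq_iff]
        simp only [hφ.eq_iff, Bool.not_eq_true', Bool.or_eq_false_iff, Bool.and_eq_false_iff, decide_eq_false_iff_not]
        tauto
      have b2 : ∀ y : Fin n, (gr (chR s t m R ρ)).Adj m (φ y) ↔
          (y = s' ∨ y = t' ∨ ((gr ρ).Adj (φ s') (φ y) ∧ (gr ρ).Adj (φ t') (φ y))) := by
        intro y
        rw [gr_adj hwf', gr_adj h, gr_adj h, a2 _ (hφm y), hR, hs', ht']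
        have c1 : φ y = s ↔ y = s' := by rw [← hs', hφ.eq_iff]
        have c2 : φ y = t ↔ y = t' := by rw [← ht', hφ.eq_iff]
        simp only [Bool.or_eq_true, Bool.and_eq_true, decide_eq_true_eq, c1, c2]
        tauto
      ext x y
      rw [SimpleGraph.comap_adj]
      refine Fin.lastCases ?_ (fun x => ?_) x
      · refine Fin.lastCases ?_ (fun y => ?_) y
        · constructor
          · intro h1
            exact absurd h1 (SimpleGraph.irrefl _)
          · intro h1
            exact absurd h1 (SimpleGraph.irrefl _)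
        · rw [Fin.lastCases_last, Fin.lastCases_castSucc, b2]
          constructor
          · intro h1
            exact Or.inr (Or.inl ⟨rfl, y, rfl, h1⟩)
          · rintro (⟨a, b, h1, h2, -⟩ | ⟨-, b, h1, h2⟩ | ⟨h1, -⟩)
            · exact absurd h1.symm (Fin.castSucc_lt_last a).ne
            · rwa [Fin.castSucc_injective _ h1]
            · exact absurd h1 (Fin.castSucc_lt_last y).ne
      · refine Fin.lastCases ?_ (fun y => ?_) y
        · rw [Fin.lastCases_last, Fin.lastCases_castSucc, SimpleGraph.adj_comm, b2]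
          constructor
          · intro h1
            exact Or.inr (Or.inr ⟨rfl, x, rfl, h1⟩)
          · rintro (⟨a, b, h1, h2, -⟩ | ⟨h1, -⟩ | ⟨-, b, h1, h2⟩)
            · exact absurd h2.symm (Fin.castSucc_lt_last b).ne
            · exact absurd h1 (Fin.castSucc_lt_last x).ne
            · rwa [Fin.castSucc_injective _ h1]
        · rw [Fin.lastCases_castSucc, Fin.lastCases_castSucc, b1]
          constructor
          · intro h1
            exact Or.inl ⟨x, y, rfl, rfl, h1.1, h1.2⟩
          · rintro (⟨a, b, h1, h2, h3, h4⟩ | ⟨h1, -⟩ | ⟨h1, -⟩)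
            · rw [Fin.castSucc_injective _ h1, Fin.castSucc_injective _ h2]
              exact ⟨h3, h4⟩
            · exact absurd h1 (Fin.castSucc_lt_last x).ne
            · exact absurd h1 (Fin.castSucc_lt_last y).ne
    rw [e]
    refine hP.sub n _ s' t' ?_ hPn
    rw [SimpleGraph.comap_adj, hs', ht', gr_adj h]
    exact hst

theorem PN_inv (hP : Cl P) {ρ : ℕ → ℕ} (h : Wf ρ) {s t m : ℕ} (hst : (ρ s).testBit t = false) (hstne : s ≠ t)
    (hR : ∀ x, (ρ m).testBit x = (((((ρ s).testBit x && (ρ t).testBit x)) ^^ decide (x = m)) ||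
      (decide (x = s) || decide (x = t))))
    (hρ : PN P ρ) : PN P (chR s t m (ρ m) ρ) := by
  obtain ⟨n0, φ0, hφ0, hran0, hPn0⟩ := hρ
  have hmsb : (ρ m).testBit s = true := by rw [hR]; simp
  have hmtb : (ρ m).testBit t = true := by rw [hR]; simp
  have hsm := h.sym _ _ hmsb
  have htm := h.sym _ _ hmtb
  have hms : m ≠ s := by
    rintro rfl
    rw [h.irr] at hmsb
    exact absurd hmsb (by decide)
  have hmt : m ≠ t := by
    rintro rfl
    rw [h.irr] at hmtb
    exact absurd hmtb (by decide)
  have hne : ∀ (r j : ℕ), r.testBit j = true → r ≠ 0 := by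
    intro r j h1 h2
    rw [h2] at h1
    simp at h1
  have hts : (ρ t).testBit s = false := by
    by_contra h1
    rw [Bool.not_eq_false] at h1
    have := h.sym _ _ h1
    rw [this] at hst
    exact absurd hst (by decide)
  have hsymb : ∀ i j, (ρ i).testBit j = (ρ j).testBit i := by
    intro i j
    rw [Bool.eq_iff_iff]
    exact ⟨h.sym i j, h.sym j i⟩
  have hwf' := h.chR (m := m) (R := ρ m) hstne
  -- put `m` in the last place
  obtain ⟨m0, hm0⟩ := (hran0 m).1 (hne _ s hmsb)
  obtain ⟨n, rfl⟩ : ∃ n, n0 = n + 1 := ⟨n0 - 1, by have := m0.2; omega⟩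
  obtain ⟨σ, hσ⟩ : ∃ σ : Equiv.Perm (Fin (n + 1)), σ = Equiv.swap (Fin.last n) m0 := ⟨_, rfl⟩
  have hσl : φ0 (σ (Fin.last n)) = m := by rw [hσ, Equiv.swap_apply_left, hm0]
  have hP1 := hP.rel (n + 1) _ σ hPn0
  obtain ⟨φ, hφd⟩ : ∃ φ : Fin n → ℕ, φ = fun x => φ0 (σ (Fin.castSucc x)) := ⟨_, rfl⟩
  have hφ : Function.Injective φ := by
    intro x y hxy
    rw [hφd] at hxy
    exact Fin.castSucc_injective _ (σ.injective (hφ0 hxy))
  have hφm : ∀ i, φ i ≠ m := by
    intro i h1
    rw [hφd, ← hσl] at h1
    exact (Fin.castSucc_lt_last i).ne (σ.injective (hφ0 h1))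
  have hran : ∀ i, i ∈ Set.range φ ↔ ρ i ≠ 0 ∧ i ≠ m := by
    intro i
    constructor
    · rintro ⟨x, rfl⟩
      refine ⟨(hran0 _).2 ⟨σ (Fin.castSucc x), by rw [hφd]⟩, hφm x⟩
    · rintro ⟨h1, h2⟩
      obtain ⟨y, hy⟩ := (hran0 i).1 h1
      have : σ.symm y ≠ Fin.last n := by
        intro h3
        apply h2
        rw [← hy, ← hσl, ← h3, Equiv.apply_symm_apply]
      obtain ⟨x, hx⟩ := Fin.exists_castSucc_eq.2 this
      refine ⟨x, ?_⟩
      rw [hφd]
      dsimp only
      rw [hx, Equiv.apply_symm_apply, hy]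
  obtain ⟨s', hs'⟩ := (hran s).2 ⟨hne _ m hsm, Ne.symm hms⟩
  obtain ⟨t', ht'⟩ := (hran t).2 ⟨hne _ m htm, Ne.symm hmt⟩
  -- the new adjacency
  have a1 : ∀ i j, i ≠ m → j ≠ m → (chR s t m (ρ m) ρ i).testBit j =
      ((ρ i).testBit j || ((decide (i = s) && decide (j = t)) || (decide (i = t) && decide (j = s)))) := by
    intro i j hi hj
    rw [chR_bit, decide_eq_false hi, decide_eq_false hj]
    by_cases e1 : i = s
    · subst e1
      by_cases e2 : j = t
      · subst e2
        simp [hst, hstne]
      · simp [e2, hstne]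
    · by_cases e2 : i = t
      · subst e2
        by_cases e3 : j = s
        · subst e3
          simp [hts, e1]
        · simp [e3, e1]
      · simp [e1, e2]
  have a3 : ∀ i, i ≠ m → (chR s t m (ρ m) ρ i).testBit m = false := by
    intro i hi
    rw [chR_bit, decide_eq_false hi, decide_eq_false hms, decide_eq_false hmt, hsymb i m]
    simp
  refine ⟨n, φ, hφ, ?_, ?_⟩
  · intro i
    rw [hran]
    by_cases him : i = m
    · subst him
      simp only [ne_eq, not_true_eq_false, and_false, iff_false, not_not]
      apply Nat.eq_of_testBit_eq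
      intro j
      rw [Nat.zero_testBit, chR_bit, decide_eq_false hms, decide_eq_false hmt]
      by_cases hj : j = i
      · subst hj
        rw [h.irr]
        simp
      · simp [hj]
    · simp only [him, not_false_eq_true, and_true, ne_eq]
      constructor
      · intro h1 h2
        apply h1
        apply Nat.eq_of_testBit_eq
        intro j
        rw [Nat.zero_testBit]
        by_cases hj : j = m
        · subst hj
          exact a3 i him
        · rw [a1 i j him hj, h2]
          have e2 : i ≠ s := fun h3 => hne _ m hsm (h3 ▸ h2)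
          have e3 : i ≠ t := fun h3 => hne _ m htm (h3 ▸ h2)
          simp [e2, e3]
      · intro h1
        by_cases e2 : i = s
        · subst e2
          apply hne _ t
          rw [a1 _ _ him (Ne.symm hmt)]
          simp
        · by_cases e3 : i = t
          · subst e3
            apply hne _ s
            rw [a1 _ _ him (Ne.symm hms)]
            simp
          · by_cases hRi : (ρ m).testBit i = true
            · -- `i` is adjacent to `s`
              apply hne _ s
              rw [a1 _ _ him (Ne.symm hms)]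
              rw [hR i] at hRi
              simp only [him, decide_false, Bool.xor_false, e2, e3, Bool.or_false, Bool.and_eq_true] at hRi
              rw [h.sym _ _ hRi.1]
              simp
            · rw [Bool.not_eq_true] at hRi
              unfold chR
              simp [hRi, e2, e3, him, h1]
  · have e : ((gr ρ).comap φ0).comap σ = sd ((gr (chR s t m (ρ m) ρ)).comap φ) s' t' := by
      have b1 : ∀ x y : Fin n, (gr ρ).Adj (φ x) (φ y) ↔
          (gr (chR s t m (ρ m) ρ)).Adj (φ x) (φ y) ∧ s(x, y) ≠ s(s', t') := by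
        intro x y
        rw [gr_adj hwf', gr_adj h, a1 _ _ (hφm x) (hφm y), Ne, Sym2.eq_iff]
        have c1 : ∀ x, φ x = s ↔ x = s' := fun x => by rw [← hs', hφ.eq_iff]
        have c2 : ∀ x, φ x = t ↔ x = t' := fun x => by rw [← ht', hφ.eq_iff]
        simp only [Bool.or_eq_true, Bool.and_eq_true, decide_eq_true_eq, c1, c2]
        constructor
        · intro h1
          refine ⟨Or.inl h1, ?_⟩
          rintro (⟨rfl, rfl⟩ | ⟨rfl, rfl⟩)
          · rw [hs', ht', hst] at h1
            exact absurd h1 (by decide)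
          · rw [hs', ht', hts] at h1
            exact absurd h1 (by decide)
        · rintro ⟨h1 | h1, h2⟩
          · exact h1
          · exact absurd h1 h2
      have b2 : ∀ y : Fin n, (gr ρ).Adj m (φ y) ↔
          (y = s' ∨ y = t' ∨ ((gr (chR s t m (ρ m) ρ)).Adj (φ s') (φ y) ∧
            (gr (chR s t m (ρ m) ρ)).Adj (φ t') (φ y))) := by
        intro y
        rw [gr_adj hwf', gr_adj hwf', gr_adj h, hR, hs', ht', a1 _ _ (Ne.symm hms) (hφm y),
          a1 _ _ (Ne.symm hmt) (hφm y), decide_eq_false (hφm y)]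
        have c1 : ∀ x, φ x = s ↔ x = s' := fun x => by rw [← hs', hφ.eq_iff]
        have c2 : ∀ x, φ x = t ↔ x = t' := fun x => by rw [← ht', hφ.eq_iff]
        simp only [Bool.or_eq_true, Bool.and_eq_true, decide_eq_true_eq, c1, c2, Bool.xor_false]
        tauto
      ext x y
      rw [SimpleGraph.comap_adj, SimpleGraph.comap_adj]
      have d1 : ∀ x, φ0 (σ (Fin.castSucc x)) = φ x := fun x => by rw [hφd]
      refine Fin.lastCases ?_ (fun x => ?_) x
      · refine Fin.lastCases ?_ (fun y => ?_) y
        · constructor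
          · intro h1
            exact absurd h1 (SimpleGraph.irrefl _)
          · intro h1
            exact absurd h1 (SimpleGraph.irrefl _)
        · rw [hσl, d1, b2]
          constructor
          · intro h1
            exact Or.inr (Or.inl ⟨rfl, y, rfl, h1⟩)
          · rintro (⟨a, b, h1, h2, -⟩ | ⟨-, b, h1, h2⟩ | ⟨h1, -⟩)
            · exact absurd h1.symm (Fin.castSucc_lt_last a).ne
            · rwa [Fin.castSucc_injective _ h1]
            · exact absurd h1 (Fin.castSucc_lt_last y).ne
      · refine Fin.lastCases ?_ (fun y => ?_) y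
        · rw [hσl, d1, SimpleGraph.adj_comm, b2]
          constructor
          · intro h1
            exact Or.inr (Or.inr ⟨rfl, x, rfl, h1⟩)
          · rintro (⟨a, b, h1, h2, -⟩ | ⟨h1, -⟩ | ⟨-, b, h1, h2⟩)
            · exact absurd h2.symm (Fin.castSucc_lt_last b).ne
            · exact absurd h1 (Fin.castSucc_lt_last x).ne
            · rwa [Fin.castSucc_injective _ h1]
        · rw [d1, d1, b1]
          constructor
          · intro h1
            exact Or.inl ⟨x, y, rfl, rfl, h1.1, h1.2⟩
          · rintro (⟨a, b, h1, h2, h3, h4⟩ | ⟨h1, -⟩ | ⟨h1, -⟩)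
            · rw [Fin.castSucc_injective _ h1, Fin.castSucc_injective _ h2]
              exact ⟨h3, h4⟩
            · exact absurd h1 (Fin.castSucc_lt_last x).ne
            · exact absurd h1 (Fin.castSucc_lt_last y).ne
    rw [e] at hP1
    refine hP.inv n _ s' t' ?_ hP1
    rw [SimpleGraph.comap_adj, hs', ht', gr_adj hwf', a1 _ _ (Ne.symm hms) (Ne.symm hmt)]
    simp

/-- the state -/
structure Ok (P : ∀ n : ℕ, SimpleGraph (Fin n) → Prop) (k : ℕ) (T : Tr) : Prop where
  sh : ShD k T
  wf : Wf (rho k T)
  pn : PN P (rho k T)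

theorem and_true' {a b : Bool} (h : and a b = true) : a = true ∧ b = true := by
  cases a <;> cases b <;> simp_all

theorem rho_get {k : ℕ} {T : Tr} {i : ℕ} (h : i < 2 ^ k) : get T i = rho k T i := by
  unfold rho
  rw [if_pos h]

theorem rho_zero {k : ℕ} {T : Tr} {i : ℕ} (h : 2 ^ k ≤ i) : rho k T i = 0 := by
  unfold rho
  rw [if_neg (by omega)]

theorem step_ok (hP : Cl P) {k : ℕ} (mv : Mv) {T : Tr} (hT : Ok P k T) (c : Tr → Bool)
    (h : step (2 ^ k) mv T c = true) : ∃ T', Ok P k T' ∧ c T' = true := by
  have e' : ∀ x, Nat.shiftLeft 1 x = 2 ^ x := fun x => Nat.one_shiftLeft x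
  cases mv with
  | a s t m =>
    change (force (get T s) fun rs => force (get T t) fun rt =>
      @Bool.rec (fun _ => Bool) false
        (force (Nat.lor (Nat.land rs rt) (Nat.lor (Nat.shiftLeft 1 s) (Nat.shiftLeft 1 t))) fun R => chg s t m R T c)
        (and (bit rs t) (and (Nat.beq (get T m) 0) (and (Nat.ble (Nat.succ s) (2 ^ k))
          (and (Nat.ble (Nat.succ t) (2 ^ k)) (Nat.ble (Nat.succ m) (2 ^ k))))))) = true at h
    rw [force_eq, force_eq] at h
    obtain ⟨h1, h2⟩ := rec_true h
    rw [force_eq, e', e'] at h2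
    obtain ⟨c1, h1⟩ := and_true' h1
    obtain ⟨c2, h1⟩ := and_true' h1
    obtain ⟨c3, h1⟩ := and_true' h1
    obtain ⟨c4, c5⟩ := and_true' h1
    have hs := ble_lt c3
    have ht := ble_lt c4
    have hm := ble_lt c5
    have hm0 := Nat.eq_of_beq_eq_true c2
    rw [bit_eq] at c1
    rw [rho_get hs] at c1
    rw [rho_get hm] at hm0
    rw [rho_get hs, rho_get ht] at h2
    obtain ⟨R, hRd⟩ : ∃ R, R = (rho k T s &&& rho k T t) ||| (2 ^ s ||| 2 ^ t) := ⟨_, rfl⟩
    have hRb : ∀ x, R.testBit x = (((rho k T s).testBit x && (rho k T t).testBit x) ||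
        (decide (x = s) || decide (x = t))) := by
      intro x
      rw [hRd, Nat.testBit_or, Nat.testBit_and, Nat.testBit_or, Nat.testBit_two_pow, Nat.testBit_two_pow]
      simp [eq_comm]
    have hlt : R < 2 ^ 2 ^ k := by
      apply Nat.lt_pow_two_of_testBit
      intro j hj
      rw [hRb]
      have : (rho k T s).testBit j = false :=
        Nat.testBit_lt_two_pow ((wf_lt hT.wf (fun i => rho_zero) s).trans_le
          (Nat.pow_le_pow_right (by norm_num) hj))
      have h5 : j ≠ s := by omega
      have h6 : j ≠ t := by omega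
      simp [this, h5, h6]
    change chg s t m ((rho k T s &&& rho k T t) ||| (2 ^ s ||| 2 ^ t)) T c = true at h2
    rw [← hRd] at h2
    have hstne : s ≠ t := by
      rintro rfl
      rw [hT.wf.irr] at c1
      exact absurd c1 (by decide)
    obtain ⟨T', t1, t2, t3⟩ := rho_chg hT.sh hs ht hm hlt c h2
    refine ⟨T', ⟨t1, ?_, ?_⟩, t3⟩
    · rw [t2]
      exact hT.wf.chR hstne
    · rw [t2]
      exact PN_sub hP hT.wf c1 hm0 hRb hT.pn
  | r s t m =>
    change (force (get T s) fun rs => force (get T t) fun rt => force (get T m) fun R =>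
      @Bool.rec (fun _ => Bool) false (chg s t m R T c)
        (and (Nat.beq R (Nat.lor (Nat.xor (Nat.land rs rt) (Nat.shiftLeft 1 m))
            (Nat.lor (Nat.shiftLeft 1 s) (Nat.shiftLeft 1 t))))
          (and (not (bit rs t)) (and (not (Nat.beq s t)) (and (Nat.ble (Nat.succ s) (2 ^ k))
          (and (Nat.ble (Nat.succ t) (2 ^ k)) (Nat.ble (Nat.succ m) (2 ^ k)))))))) = true at h
    rw [force_eq, force_eq, force_eq] at h
    obtain ⟨h1, h2⟩ := rec_true h
    obtain ⟨c0, h1⟩ := and_true' h1
    obtain ⟨c1, h1⟩ := and_true' h1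
    obtain ⟨c2, h1⟩ := and_true' h1
    obtain ⟨c3, h1⟩ := and_true' h1
    obtain ⟨c4, c5⟩ := and_true' h1
    have hs := ble_lt c3
    have ht := ble_lt c4
    have hm := ble_lt c5
    have c0 := Nat.eq_of_beq_eq_true c0
    rw [Bool.not_eq_true', bit_eq] at c1
    have hstne : s ≠ t := by
      rintro rfl
      rw [Bool.not_eq_true'] at c2
      have : Nat.beq s s = true := Nat.beq_refl s
      rw [this] at c2
      exact absurd c2 (by decide)
    rw [rho_get hs] at c1
    rw [e', e', e', rho_get hs, rho_get ht, rho_get hm] at c0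
    rw [rho_get hm] at h2
    have hRb : ∀ x, (rho k T m).testBit x = (((((rho k T s).testBit x && (rho k T t).testBit x)) ^^ decide (x = m)) ||
        (decide (x = s) || decide (x = t))) := by
      intro x
      have h5 : (rho k T m) = (((rho k T s &&& rho k T t) ^^^ 2 ^ m) ||| (2 ^ s ||| 2 ^ t)) := c0
      have h6 := congrArg (fun y => Nat.testBit y x) h5
      simp only [Nat.testBit_or, Nat.testBit_and, Nat.testBit_xor, Nat.testBit_two_pow] at h6
      rw [h6]
      simp [eq_comm]
    obtain ⟨T', t1, t2, t3⟩ := rho_chg hT.sh hs ht hm (wf_lt hT.wf (fun i => rho_zero) m) c h2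
    refine ⟨T', ⟨t1, ?_, ?_⟩, t3⟩
    · rw [t2]
      exact hT.wf.chR hstne
    · rw [t2]
      exact PN_inv hP hT.wf c1 hstne hRb hT.pn

theorem run_ok (hP : Cl P) {k : ℕ} (l : List Mv) : ∀ {T : Tr}, Ok P k T → ∀ (c : Tr → Bool),
    run (2 ^ k) l T c = true → ∃ T', Ok P k T' ∧ c T' = true := by
  induction l with
  | nil => exact fun {T} hT c h => ⟨T, hT, h⟩
  | cons mv l ih =>
    intro T hT c h
    obtain ⟨T', h1, h2⟩ := step_ok hP mv hT (fun T' => run (2 ^ k) l T' c) h
    exact ih h1 c h2

/-! ### lists -/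

theorem bld_ok (k : ℕ) : ∀ (l : List ℕ) (c : Tr → List ℕ → Bool), bld k l c = true →
    ∃ T, ShD k T ∧ (∀ i, i < 2 ^ k → get T i = l.getD i 0) ∧ c T (l.drop (2 ^ k)) = true := by
  induction k with
  | zero =>
    intro l c h
    cases l with
    | nil =>
      refine ⟨Tr.L 0, trivial, fun i hi => ?_, h⟩
      rw [get_L]
      simp
    | cons v l =>
      refine ⟨Tr.L v, trivial, fun i hi => ?_, h⟩
      have : i = 0 := by simpa using hi
      subst this
      rfl
  | succ k ih =>
    intro l c h
    change bld k l (fun a l1 => bld k l1 fun b l2 =>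
      force (Nat.pow 2 k) fun w => force (Nat.pow 2 w) fun pw => c (Tr.N w pw a b) l2) = true at h
    obtain ⟨a, a1, a2, a3⟩ := ih _ _ h
    obtain ⟨b, b1, b2, b3⟩ := ih _ _ a3
    rw [force_eq, force_eq] at b3
    refine ⟨Tr.N (2 ^ k) (2 ^ 2 ^ k) a b, ⟨rfl, rfl, a1, b1⟩, fun i hi => ?_, ?_⟩
    · rw [get_N]
      by_cases h1 : 2 ^ k ≤ i
      · rw [if_pos h1, b2 _ (by rw [pow_succ] at hi; omega)]
        simp only [List.getD_eq_getElem?_getD, List.getElem?_drop]
        rw [show 2 ^ k + (i - 2 ^ k) = i by omega]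
      · rw [if_neg h1, a2 _ (by omega)]
    · have : l.drop (2 ^ (k + 1)) = (l.drop (2 ^ k)).drop (2 ^ k) := by
        rw [List.drop_drop]
        congr 1
        rw [pow_succ]
        omega
      rw [this]
      exact b3

theorem cmp_ok (k : ℕ) : ∀ (T : Tr), ShD k T → ∀ (l : List ℕ) (c : List ℕ → Bool), cmp T l c = true →
    (∀ i, i < 2 ^ k → get T i = l.getD i 0) ∧ c (l.drop (2 ^ k)) = true := by
  induction k with
  | zero =>
    intro T hT l c h
    cases T with
    | N w pw l r => exact hT.elim
    | L v =>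
      cases l with
      | nil =>
        obtain ⟨h1, h2⟩ := rec_true h
        refine ⟨fun i hi => ?_, h2⟩
        rw [get_L, Nat.eq_of_beq_eq_true h1]
        simp
      | cons v' l =>
        obtain ⟨h1, h2⟩ := rec_true h
        refine ⟨fun i hi => ?_, h2⟩
        have : i = 0 := by simpa using hi
        subst this
        rw [get_L, Nat.eq_of_beq_eq_true h1]
        rfl
  | succ k ih =>
    intro T hT l c h
    cases T with
    | L v => exact hT.elim
    | N w pw a b =>
      obtain ⟨h1, h2, h3, h4⟩ := hT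
      change cmp a l (fun l1 => cmp b l1 c) = true at h
      obtain ⟨a1, a2⟩ := ih a h3 _ _ h
      obtain ⟨b1, b2⟩ := ih b h4 _ _ a2
      subst h1
      refine ⟨fun i hi => ?_, ?_⟩
      · rw [get_N]
        by_cases h1 : 2 ^ k ≤ i
        · rw [if_pos h1, b1 _ (by rw [pow_succ] at hi; omega)]
          simp only [List.getD_eq_getElem?_getD, List.getElem?_drop]
          rw [show 2 ^ k + (i - 2 ^ k) = i by omega]
        · rw [if_neg h1, a1 _ (by omega)]
      · have : l.drop (2 ^ (k + 1)) = (l.drop (2 ^ k)).drop (2 ^ k) := by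
          rw [List.drop_drop]
          congr 1
          rw [pow_succ]
          omega
        rw [this]
        exact b2

theorem nil_ok {l : List ℕ} (h : nil l = true) : l = [] := by
  cases l with
  | nil => rfl
  | cons a l => exact absurd (show false = true from h) (by decide)

/-- the rows of a list -/
def rl (rows : List ℕ) (i : ℕ) : ℕ := rows.getD i 0

/-- the list of rows is symmetric and irreflexive and its graph has the property `P` -/
structure PL (P : ∀ n : ℕ, SimpleGraph (Fin n) → Prop) (rows : List ℕ) : Prop where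
  wf : Wf (rl rows)
  pn : PN P (rl rows)

/-- **the checker is correct** -/
theorem check_ok (hP : Cl P) (k : ℕ) (rows rows' : List ℕ) (mv : List Mv) (h : check k rows mv rows' = true)
    (h0 : PL P rows) : PL P rows' := by
  obtain ⟨T, t1, t2, t3⟩ := bld_ok k rows _ h
  obtain ⟨h1, h2⟩ := and_true' t3
  have hn := nil_ok h1
  rw [force_eq] at h2
  have hlen : rows.length ≤ 2 ^ k := by
    have := congrArg List.length hn
    rw [List.length_drop, List.length_nil] at this
    omega
  have hr : ∀ (T : Tr) (l : List ℕ), (∀ i, i < 2 ^ k → get T i = l.getD i 0) → l.length ≤ 2 ^ k →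
      rho k T = rl l := by
    intro T l h3 h4
    funext i
    by_cases h5 : i < 2 ^ k
    · rw [← rho_get h5, h3 i h5]
      rfl
    · rw [rho_zero (by omega)]
      unfold rl
      rw [List.getD_eq_getElem?_getD, List.getElem?_eq_none (by omega)]
      rfl
  have hT : Ok P k T := ⟨t1, by rw [hr T rows t2 hlen]; exact h0.wf, by rw [hr T rows t2 hlen]; exact h0.pn⟩
  obtain ⟨T', o1, o2⟩ := run_ok hP mv hT _ h2
  obtain ⟨c1, c2⟩ := cmp_ok k T' o1.sh _ _ o2
  have hn' := nil_ok c2
  have hlen' : rows'.length ≤ 2 ^ k := by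
    have := congrArg List.length hn'
    rw [List.length_drop, List.length_nil] at this
    omega
  have e := hr T' rows' c1 hlen'
  exact ⟨by rw [← e]; exact o1.wf, by rw [← e]; exact o1.pn⟩

/-- the graph of a list of rows -/
def grL (rows : List ℕ) (n : ℕ) : SimpleGraph (Fin n) := (gr (rl rows)).comap Fin.val

theorem grL_adj {rows : List ℕ} (h : Wf (rl rows)) {n : ℕ} (i j : Fin n) :
    (grL rows n).Adj i j ↔ (rows.getD i 0).testBit j = true := gr_adj h _ _

/-- the start: the graph of a list of nonzero rows -/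
theorem PL_of {n : ℕ} {rows : List ℕ} (hlen : rows.length = n) (hwf : Wf (rl rows)) (hnz : ∀ i < n, rl rows i ≠ 0)
    (h : P n (grL rows n)) : PL P rows := by
  refine ⟨hwf, n, Fin.val, Fin.val_injective, fun i => ?_, h⟩
  constructor
  · intro h1
    have : i < n := by
      by_contra h2
      apply h1
      unfold rl
      rw [List.getD_eq_getElem?_getD, List.getElem?_eq_none (by omega)]
      rfl
    exact ⟨⟨i, this⟩, rfl⟩
  · rintro ⟨x, rfl⟩
    exact hnz _ x.2

/-- the end: the graph of a list of nonzero rows -/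
theorem of_PL (hP : Cl P) {n : ℕ} {rows : List ℕ} (hlen : rows.length = n) (hnz : ∀ i < n, rl rows i ≠ 0)
    (h : PL P rows) : P n (grL rows n) := by
  obtain ⟨m, φ, hφ, hran, hm⟩ := h.pn
  have hlt : ∀ x, φ x < n := by
    intro x
    by_contra h2
    apply (hran (φ x)).2 ⟨x, rfl⟩
    unfold rl
    rw [List.getD_eq_getElem?_getD, List.getElem?_eq_none (by omega)]
    rfl
  have hbij : Function.Bijective (fun x => (⟨φ x, hlt x⟩ : Fin n)) := by
    constructor
    · intro x y hxy
      exact hφ (congrArg Fin.val hxy)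
    · intro y
      obtain ⟨x, hx⟩ := (hran (y : ℕ)).1 (hnz _ y.2)
      exact ⟨x, Fin.ext hx⟩
  have hmn : m = n := by
    have := Fintype.card_of_bijective hbij
    simpa using this
  subst hmn
  obtain ⟨σ, hσ⟩ : ∃ σ : Equiv.Perm (Fin m), σ = Equiv.ofBijective _ hbij := ⟨_, rfl⟩
  have hσφ : ∀ x, ((σ x : Fin m) : ℕ) = φ x := by
    intro x
    rw [hσ]
    rfl
  have e : grL rows m = ((gr (rl rows)).comap φ).comap σ.symm := by
    ext x y
    unfold grL
    rw [SimpleGraph.comap_adj, SimpleGraph.comap_adj, SimpleGraph.comap_adj, ← hσφ, ← hσφ, Equiv.apply_symm_apply,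
      Equiv.apply_symm_apply]
  rw [e]
  exact hP.rel m _ σ.symm hm

end

end Pool.Agent.V8H64.Ck
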