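import Pool.Agent.V8H64.Ck.Base
import Pool.Agent.V8H64.Ck.Sem
import Pool.Agent.V8H54.LT.Fin

/-!
# From a certificate to the conclusion of `Main3H`

`Sph k` : homology sphere over `ℝ` and over the field with two elements. `octR k` : adjacency rows of the octahedral
sphere. `PL_oct`, `check_ok (cl_sph k)`, `main_of_cert`.
-/

set_option autoImplicit false

noncomputable section

namespace Pool.Agent.V8H64.Ck

open Module Filter Topology Pool.Agent.W907.SG Pool.Agent.W461.SGN Pool.Agent.R782.Bal
open Pool.Agent.N496.LT Pool.Agent.V8H3.LT Pool.Agent.V8H54.LT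
open Pool.Agent.TH652.Above (HSph)
open Pool.Agent.N504.RS.Two (HSph2)

/-- the flag complex of the graph is a homology sphere over `ℝ` and over the field with two elements -/
def Sph (k : ℕ) (n : ℕ) (G : SimpleGraph (Fin n)) : Prop := HSph k G ∧ HSph2 k G

/-- homology spheres are closed under edge subdivisions, their inverses, and relabelling -/
theorem cl_sph (k : ℕ) : Cl (Sph k) where
  sub _ _ _ _ hst h := ⟨e1 k _ _ _ _ hst h.1, Pool.Agent.N504.RS.Two.e1_two hst h.2⟩
  inv _ _ _ _ hst h := ⟨Pool.Agent.V8H96.LT.e1_inv k _ _ _ _ hst h.1, e1_two_inv hst h.2⟩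
  rel _ G σ h := ⟨Pool.Agent.V8H86.LT.hsph_iso (SimpleGraph.Iso.comap σ G).symm h.1,
    hsph2_iso (SimpleGraph.Iso.comap σ G).symm h.2⟩

/-- the rows of the octahedral sphere on `2 k` vertices -/
def octR (k : ℕ) : List ℕ := (List.range (2 * k)).map fun i => (2 ^ (2 * k) - 1) ^^^ ((2 ^ 2 - 1) <<< (2 * (i / 2)))

theorem rl_octR (k i : ℕ) : rl (octR k) i = if i < 2 * k then (2 ^ (2 * k) - 1) ^^^ ((2 ^ 2 - 1) <<< (2 * (i / 2))) else 0 := by
  unfold rl octR
  rw [List.getD_eq_getElem?_getD, List.getElem?_map]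
  by_cases h : i < 2 * k
  · rw [List.getElem?_range h, if_pos h]
    rfl
  · rw [List.getElem?_eq_none (by rw [List.length_range]; omega), if_neg h]
    rfl

theorem rl_octR_bit (k i j : ℕ) : (rl (octR k) i).testBit j = (decide (i < 2 * k) && (decide (j < 2 * k) && decide (i / 2 ≠ j / 2))) := by
  rw [rl_octR]
  by_cases h : i < 2 * k
  · rw [if_pos h, Nat.testBit_xor, Nat.testBit_two_pow_sub_one, Nat.testBit_shiftLeft, Nat.testBit_two_pow_sub_one,
      decide_eq_true h, Bool.true_and]
    by_cases hj : j < 2 * k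
    · by_cases h2 : i / 2 = j / 2
      · have h3 : 2 * (i / 2) ≤ j := by omega
        have h4 : j - 2 * (i / 2) < 2 := by omega
        simp [hj, h2]
        omega
      · simp [hj, h2]
        omega
    · simp [hj]
      omega
  · rw [if_neg h, decide_eq_false h, Nat.zero_testBit, Bool.false_and]

theorem wf_octR (k : ℕ) : Wf (rl (octR k)) := by
  constructor
  · intro i j h
    rw [rl_octR_bit] at h ⊢
    simp only [Bool.and_eq_true, decide_eq_true_eq] at h ⊢
    exact ⟨h.2.1, h.1, h.2.2.symm⟩
  · intro i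
    rw [rl_octR_bit]
    simp

/-- the start of a certificate -/
theorem PL_oct (k : ℕ) (hk : 2 ≤ k) : PL (Sph k) (octR k) := by
  refine PL_of (n := 2 * k) ?_ (wf_octR k) ?_ ?_
  · unfold octR
    rw [List.length_map, List.length_range]
  · intro i hi h
    have h1 := rl_octR_bit k i (if i / 2 = 0 then 2 else 0)
    rw [h, Nat.zero_testBit] at h1
    split_ifs at h1 with h2
    · simp [hi, h2] at h1
      omega
    · simp [hi] at h1
      omega
  · have h : grL (octR k) (2 * k) = octG k := by
      ext i j
      rw [grL_adj (wf_octR k)]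
      have h1 := rl_octR_bit k i j
      unfold rl at h1
      rw [h1]
      simp only [Bool.and_eq_true, decide_eq_true_eq]
      exact ⟨fun h => h.2.2, fun h => ⟨i.2, j.2, h⟩⟩
    rw [h]
    exact ⟨oct_hsph k, oct_hsph2 k⟩

/-- the list has length `n` and no entry is zero, for the kernel -/
def full : List ℕ → ℕ → Bool
  | [], n => Nat.beq n 0
  | r :: l, n => @Bool.rec (fun _ => Bool) (@Nat.rec (fun _ => Bool) false (fun m _ => full l m) n) false (Nat.beq r 0)

theorem full_ok : ∀ (l : List ℕ) (n : ℕ), full l n = true → l.length = n ∧ ∀ i < n, l.getD i 0 ≠ 0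
  | [], n => by
    intro h
    have h1 : n = 0 := Nat.eq_of_beq_eq_true h
    subst h1
    exact ⟨rfl, fun i hi => absurd hi (Nat.not_lt_zero i)⟩
  | r :: l, n => by
    intro h
    cases hr : Nat.beq r 0 with
    | true =>
      unfold full at h
      rw [hr] at h
      exact absurd (show false = true from h) (by decide)
    | false =>
      unfold full at h
      rw [hr] at h
      cases n with
      | zero => exact absurd (show false = true from h) (by decide)
      | succ n =>
        obtain ⟨h1, h2⟩ := full_ok l n h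
        refine ⟨by rw [List.length_cons, h1], fun i hi => ?_⟩
        cases i with
        | zero =>
          intro h3
          have h4 : r = 0 := h3
          subst h4
          exact absurd hr (by decide)
        | succ i => exact h2 i (by omega)

/-- **The conclusion of `Main3H` from a certificate.** -/
theorem main_of_cert (hM : Main3H) {N d p : ℕ} [Fact p.Prime] (hp : p ≠ 2) (hd : 1 ≤ d) {rows : List ℕ}
    (hf : full rows N = true) (hPL : PL (Sph (2 * d + 1)) rows) (V : List (ℕ × ℕ × ℕ))
    (S : List (List ℕ × ℕ)) (h : chk N d p (adjR rows) V S = true) :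
    ∃ (n : ℕ) (S : SimpleGraph (Fin n)), Sub (grL rows N) S ∧ HSph (2 * d + 1) S ∧ HSph2 (2 * d + 1) S ∧
    (∀ i, L2Van S i) ∧
    ResFin (th S).ker ∧
    (davis S).toFree.DetL2Acyclic ∧
    ((davis S).prod ((davis S).prod (davis S))).toFree.DetL2Acyclic ∧
    ((davis S).prod ((davis S).prod (davis S))).toFree.l2torsion = 0 ∧
    ∀ (K : ℕ → Subgroup (th S).ker) [∀ i, (K i).Normal], (∀ i, (K i).FiniteIndex) → Antitone K →
      ⨅ i, K i = ⊥ → ∀ c : ℝ, 0 < c → c < 2 ^ n / 2 ^ numU V → ∀ᶠ i in atTop, c ^ 3 * Real.log p ≤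
        Real.log ((((davis S).prod ((davis S).prod (davis S))).quot
          ((K i).prod ((K i).prod (K i)))).torsOrder (3 * d + 1)) / ((K i).prod ((K i).prod (K i))).index := by
  obtain ⟨h1, h2⟩ := full_ok rows N hf
  obtain ⟨h3, h4⟩ := of_PL (cl_sph (2 * d + 1)) h1 h2 hPL
  exact main_of_data hM hp hd h3 h4 (fun x y => grL_adj hPL.wf x y) V S h

end Pool.Agent.V8H64.Ck
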