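import Pool.Agent.V8H64.Ck.Iso2

/-!
# Octahedral spheres
-/

set_option autoImplicit false

noncomputable section

namespace Pool.Agent.V8H64.Ck

open Module Pool.Agent.W907.SG
open Pool.Agent.W907.SM (lk)
open Pool.Agent.TH652.Above (HSph)
open Pool.Agent.N504.RS.Two (HSph2)

section empty

variable {V : Type} [Fintype V] [LinearOrder V]

/-- the real reduced Betti numbers of the empty complex -/
theorem bb_empty (G : SimpleGraph V) (i : ℕ) :
    Pool.Agent.N496.LT.E1P.bb G (∅ : Set V) i = if i = 0 then 1 else 0 := by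
  have hneg : ∀ (c : Finset V → ℝ) (T : Finset V) (t : V), t ∈ (∅ : Set V) → c T = - c T := fun _ _ _ h => absurd h (Set.notMem_empty _)
  have hK : ∀ i, i ≠ 0 → KK G (fun _ => (- LinearMap.id : ℝ →ₗ[ℝ] ℝ)) (∅ : Set V) ∅ i = ⊥ := by
    intro i hi
    rw [eq_bot_iff]
    intro c hc
    rw [Submodule.mem_bot]
    funext T
    refine (mem_KK.mp hc).1 T ?_
    rintro ⟨_, h2, h3⟩
    have : T = ∅ := by
      rw [← Finset.coe_eq_empty]
      exact Set.subset_empty_iff.mp h2
    rw [this, Finset.card_empty] at h3
    exact hi h3.symm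
  unfold Pool.Agent.N496.LT.E1P.bb
  split_ifs with hi
  · subst hi
    have hB : BB G (fun _ => (- LinearMap.id : ℝ →ₗ[ℝ] ℝ)) (∅ : Set V) ∅ 0 = ⊥ := by
      unfold BB
      rw [hK 1 one_ne_zero, Submodule.map_bot]
    have hZ : ZZ G (fun _ => (- LinearMap.id : ℝ →ₗ[ℝ] ℝ)) (∅ : Set V) ∅ 0 =
        Submodule.span ℝ {fun T => if T = ∅ then 1 else 0} := by
      refine le_antisymm ?_ ?_
      · rintro c ⟨hc, _⟩
        rw [Submodule.mem_span_singleton]
        refine ⟨c ∅, ?_⟩
        funext T
        simp only [Pi.smul_apply, smul_eq_mul]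
        split_ifs with hT
        · rw [hT, mul_one]
        · rw [mul_zero]
          symm
          refine (mem_KK.mp hc).1 T ?_
          rintro ⟨_, _, h3⟩
          exact hT (Finset.card_eq_zero.mp h3)
      · rw [Submodule.span_singleton_le_iff_mem]
        refine ⟨mem_KK.mpr ⟨fun T hT => ?_, fun T t ht => ?_⟩, ?_⟩
        · rw [if_neg]
          rintro rfl
          exact hT ⟨by simp, by simp, by simp⟩
        · rfl
        · show bd ℝ _ = 0
          funext T
          rw [bd_apply]
          refine Finset.sum_eq_zero fun v _ => ?_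
          rw [if_neg (Finset.insert_ne_empty v T), smul_zero]
    unfold beta
    rw [hB, hZ, finrank_bot, Nat.sub_zero, finrank_span_singleton]
    intro h
    have := congrFun h ∅
    simp at this
  · unfold beta
    have hZ : ZZ G (fun _ => (- LinearMap.id : ℝ →ₗ[ℝ] ℝ)) (∅ : Set V) ∅ i = ⊥ := by
      rw [eq_bot_iff, ← hK i hi]
      exact inf_le_left
    rw [hZ, finrank_bot, Nat.zero_sub]

end empty

/-- the octahedral graph: `i` and `j` are adjacent if they lie in different pairs -/
def octG (k : ℕ) : SimpleGraph (Fin (2 * k)) where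
  Adj i j := i.val / 2 ≠ j.val / 2
  symm := ⟨fun _ _ h => h.symm⟩
  loopless := ⟨fun _ h => h rfl⟩

/-- the vertices of the pairs in `I` -/
def prs (k : ℕ) (I : Finset ℕ) : Set (Fin (2 * k)) := {v | v.val / 2 ∈ I}

theorem prs_empty (k : ℕ) : prs k ∅ = ∅ := by
  ext v
  exact ⟨fun h => absurd (show v.val / 2 ∈ (∅ : Finset ℕ) from h) (Finset.notMem_empty _),
    fun h => absurd h (Set.notMem_empty _)⟩

theorem prs_sdiff {k : ℕ} {I : Finset ℕ} {p : ℕ} (hp : p ∉ I) {s t : Fin (2 * k)} (hs : s.val = 2 * p)
    (ht : t.val = 2 * p + 1) : prs k (insert p I) \ {s, t} = prs k I := by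
  ext v
  constructor
  · rintro ⟨h1, h2⟩
    rcases Finset.mem_insert.1 (show v.val / 2 ∈ insert p I from h1) with h3 | h3
    · exfalso
      apply h2
      have h4 : v.val = s.val ∨ v.val = t.val := by omega
      rcases h4 with h4 | h4
      · exact Or.inl (Fin.ext h4)
      · exact Or.inr (Fin.ext h4)
    · exact h3
  · intro h
    have h' : v.val / 2 ∈ I := h
    refine ⟨Finset.mem_insert_of_mem h', ?_⟩
    rintro (h1 | h1)
    · rw [h1] at h'
      apply hp
      have : s.val / 2 = p := by omega
      rwa [this] at h'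
    · have h1' : v = t := h1
      rw [h1'] at h'
      apply hp
      have : t.val / 2 = p := by omega
      rwa [this] at h'

theorem prs_facts {k : ℕ} {I : Finset ℕ} {p : ℕ} (s t : Fin (2 * k)) (hs : s.val = 2 * p)
    (ht : t.val = 2 * p + 1) : s ∈ prs k (insert p I) ∧ t ∈ prs k (insert p I) ∧ s ≠ t ∧ ¬ (octG k).Adj s t ∧
    ∀ w ∈ prs k (insert p I), w ≠ s → w ≠ t → (octG k).Adj s w ∧ (octG k).Adj t w := by
  refine ⟨?_, ?_, ?_, ?_, ?_⟩
  · show s.val / 2 ∈ insert p I
    rw [hs, show 2 * p / 2 = p by omega]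
    exact Finset.mem_insert_self _ _
  · show t.val / 2 ∈ insert p I
    rw [ht, show (2 * p + 1) / 2 = p by omega]
    exact Finset.mem_insert_self _ _
  · intro h
    rw [h] at hs
    omega
  · intro h
    exact h (by omega)
  · intro w _ h1 h2
    have h3 : w.val ≠ s.val := fun h => h1 (Fin.ext h)
    have h4 : w.val ≠ t.val := fun h => h2 (Fin.ext h)
    refine ⟨?_, ?_⟩
    · show s.val / 2 ≠ w.val / 2
      omega
    · show t.val / 2 ≠ w.val / 2
      omega

/-- real Betti numbers of octahedral spheres -/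
theorem oct_bb (k : ℕ) (I : Finset ℕ) : (∀ p ∈ I, p < k) → ∀ i : ℕ,
    Pool.Agent.N496.LT.E1P.bb (octG k) (prs k I) i = if i = I.card then 1 else 0 := by
  induction I using Finset.induction_on with
  | empty =>
    intro _ i
    rw [prs_empty, Finset.card_empty, bb_empty]
  | insert p I hp ih =>
    intro hI i
    have hpk : p < k := hI p (Finset.mem_insert_self _ _)
    obtain ⟨a1, a2, a3, a4, a5⟩ := prs_facts (k := k) (I := I) (p := p) ⟨2 * p, by omega⟩
      ⟨2 * p + 1, by omega⟩ rfl rfl
    have h1 := Pool.Agent.N496.LT.E1P.bb_susp a1 a2 a3 a4 a5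
    rw [prs_sdiff hp rfl rfl] at h1
    have h2 := ih fun q hq => hI q (Finset.mem_insert_of_mem hq)
    rw [Finset.card_insert_of_notMem hp]
    cases i with
    | zero =>
      rw [h1.1, if_neg (by omega)]
    | succ i =>
      rw [h1.2 i, h2 i]
      simp only [Nat.add_right_cancel_iff]

/-- mod `2` Betti numbers of octahedral spheres -/
theorem oct_bb2 (k : ℕ) (I : Finset ℕ) : (∀ p ∈ I, p < k) → ∀ i : ℕ,
    Pool.Agent.N504.RS.Two.bb (octG k) (prs k I) i = if i = I.card then 1 else 0 := by
  induction I using Finset.induction_on with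
  | empty =>
    intro _ i
    rw [prs_empty, Finset.card_empty]
    exact Pool.Agent.R782.Bal.beta_empty _ i
  | insert p I hp ih =>
    intro hI i
    have hpk : p < k := hI p (Finset.mem_insert_self _ _)
    obtain ⟨a1, a2, a3, a4, a5⟩ := prs_facts (k := k) (I := I) (p := p) ⟨2 * p, by omega⟩
      ⟨2 * p + 1, by omega⟩ rfl rfl
    have h1 := Pool.Agent.N504.RS.Two.bb_susp a1 a2 a3 a4 a5
    rw [prs_sdiff hp rfl rfl] at h1
    have h2 := ih fun q hq => hI q (Finset.mem_insert_of_mem hq)
    rw [Finset.card_insert_of_notMem hp]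
    cases i with
    | zero =>
      rw [h1.1, if_neg (by omega)]
    | succ i =>
      rw [h1.2 i, h2 i]
      simp only [Nat.add_right_cancel_iff]

/-- the links of the simplices of the octahedral sphere -/
theorem oct_lk {k : ℕ} {S : Finset (Fin (2 * k))} (hS : (octG k).IsClique (S : Set (Fin (2 * k)))) :
    lk (octG k) S = prs k (Finset.range k \ S.image fun v => v.val / 2) ∧
    (Finset.range k \ S.image fun v => v.val / 2).card + S.card = k := by
  constructor
  · ext v
    constructor
    · intro hv
      show v.val / 2 ∈ Finset.range k \ S.image fun v => v.val / 2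
      rw [Finset.mem_sdiff, Finset.mem_range, Finset.mem_image]
      refine ⟨by omega, ?_⟩
      rintro ⟨u, hu, h⟩
      exact (hv u hu : v.val / 2 ≠ u.val / 2) h.symm
    · intro hv u hu h
      have hv' : v.val / 2 ∈ Finset.range k \ S.image fun v => v.val / 2 := hv
      rw [Finset.mem_sdiff, Finset.mem_image] at hv'
      exact hv'.2 ⟨u, hu, h.symm⟩
  · have h1 : (S.image fun v => v.val / 2).card = S.card := by
      refine Finset.card_image_of_injOn ?_
      intro a ha b hb hab
      by_contra h
      exact (hS ha hb h : a.val / 2 ≠ b.val / 2) hab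
    have h2 : (S.image fun v => v.val / 2) ⊆ Finset.range k := by
      intro p hp
      rw [Finset.mem_image] at hp
      obtain ⟨u, -, rfl⟩ := hp
      rw [Finset.mem_range]
      omega
    rw [Finset.card_sdiff_of_subset h2, Finset.card_range, h1]
    have h3 := Finset.card_le_card h2
    rw [Finset.card_range, h1] at h3
    omega

/-- octahedral spheres are homology spheres -/
theorem oct_hsph (k : ℕ) : HSph k (octG k) := by
  intro S hS i
  obtain ⟨h1, h2⟩ := oct_lk hS
  have h3 := oct_bb k (Finset.range k \ S.image fun v => v.val / 2) (fun p hp => by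
    rw [Finset.mem_sdiff, Finset.mem_range] at hp
    exact hp.1) i
  rw [← h1] at h3
  refine Eq.trans h3 ?_
  split_ifs <;> first | rfl | omega

/-- octahedral spheres are mod `2` homology spheres -/
theorem oct_hsph2 (k : ℕ) : HSph2 k (octG k) := by
  intro S hS i
  obtain ⟨h1, h2⟩ := oct_lk hS
  have h3 := oct_bb2 k (Finset.range k \ S.image fun v => v.val / 2) (fun p hp => by
    rw [Finset.mem_sdiff, Finset.mem_range] at hp
    exact hp.1) i
  rw [← h1] at h3
  refine Eq.trans h3 ?_
  split_ifs <;> first | rfl | omega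

end Pool.Agent.V8H64.Ck
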