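import Mathlib

/-!
# A kernel-fast checker for sequences of edge subdivisions and inverse subdivisions of graphs

The rows of the adjacency matrix are natural numbers (bitsets), the leaves of a binary tree.
-/

set_option autoImplicit false

namespace Pool.Agent.V8H64.Ck

/-- a binary tree of natural numbers; a node contains the number `w` of leaves of the left subtree and `2 ^ w` -/
inductive Tr : Type
  | L (v : ℕ) : Tr
  | N (w pw : ℕ) (l r : Tr) : Tr

/-- evaluate the number first -/
noncomputable def force (n : ℕ) (c : ℕ → Bool) : Bool := @Nat.rec (fun _ => Bool) (c 0) (fun m _ => c (Nat.succ m)) n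

/-- the leaf number `i` -/
noncomputable def get (t : Tr) : ℕ → ℕ :=
  @Tr.rec (fun _ => ℕ → ℕ) (fun v _ => v)
    (fun w _ _ _ il ir i => @Bool.rec (fun _ => ℕ) (il i) (ir (Nat.sub i w)) (Nat.ble w i)) t

/-- apply `xor b` to all the leaves in the set `ch` -/
noncomputable def togC (b : ℕ) (t : Tr) : ℕ → (Tr → Bool) → Bool :=
  @Tr.rec (fun _ => ℕ → (Tr → Bool) → Bool)
    (fun v ch c => @Bool.rec (fun _ => Bool) (force (Nat.xor v b) fun v' => c (Tr.L v')) (c (Tr.L v)) (Nat.beq ch 0))
    (fun w pw l r il ir ch c => @Bool.rec (fun _ => Bool)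
      (il (Nat.mod ch pw) fun l' => ir (Nat.shiftRight ch w) fun r' => c (Tr.N w pw l' r'))
      (c (Tr.N w pw l r)) (Nat.beq ch 0)) t

/-- the bit `i` of `n` -/
def bit (n i : ℕ) : Bool := Nat.beq (Nat.land (Nat.shiftRight n i) 1) 1

/-- a move: the edge `s t` is subdivided by `m`, or this is reversed -/
inductive Mv : Type
  | a (s t m : ℕ) : Mv
  | r (s t m : ℕ) : Mv

/-- the change of the rows -/
noncomputable def chg (s t m R : ℕ) (T : Tr) (c : Tr → Bool) : Bool :=
  force (Nat.shiftLeft 1 m) fun bm => force (Nat.shiftLeft 1 s) fun bs => force (Nat.shiftLeft 1 t) fun bt =>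
    togC bm T R fun T1 => togC bt T1 bs fun T2 => togC bs T2 bt fun T3 => togC R T3 bm c

/-- one move -/
noncomputable def step (W : ℕ) (mv : Mv) (T : Tr) (c : Tr → Bool) : Bool :=
  @Mv.rec (fun _ => Bool)
    (fun s t m => force (get T s) fun rs => force (get T t) fun rt =>
      @Bool.rec (fun _ => Bool) false
        (force (Nat.lor (Nat.land rs rt) (Nat.lor (Nat.shiftLeft 1 s) (Nat.shiftLeft 1 t))) fun R => chg s t m R T c)
        (and (bit rs t) (and (Nat.beq (get T m) 0) (and (Nat.ble (Nat.succ s) W)
          (and (Nat.ble (Nat.succ t) W) (Nat.ble (Nat.succ m) W))))))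
    (fun s t m => force (get T s) fun rs => force (get T t) fun rt => force (get T m) fun R =>
      @Bool.rec (fun _ => Bool) false (chg s t m R T c)
        (and (Nat.beq R (Nat.lor (Nat.xor (Nat.land rs rt) (Nat.shiftLeft 1 m))
            (Nat.lor (Nat.shiftLeft 1 s) (Nat.shiftLeft 1 t))))
          (and (not (bit rs t)) (and (not (Nat.beq s t)) (and (Nat.ble (Nat.succ s) W)
          (and (Nat.ble (Nat.succ t) W) (Nat.ble (Nat.succ m) W)))))))
    mv

/-- all the moves -/
noncomputable def run (W : ℕ) (l : List Mv) : Tr → (Tr → Bool) → Bool :=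
  @List.rec Mv (fun _ => Tr → (Tr → Bool) → Bool) (fun T c => c T)
    (fun mv _ ih T c => step W mv T fun T' => ih T' c) l

/-- make a tree with `2 ^ k` leaves from a list -/
noncomputable def bld (k : ℕ) : List ℕ → (Tr → List ℕ → Bool) → Bool :=
  @Nat.rec (fun _ => List ℕ → (Tr → List ℕ → Bool) → Bool)
    (fun l c => @List.rec ℕ (fun _ => Bool) (c (Tr.L 0) []) (fun v l' _ => c (Tr.L v) l') l)
    (fun k ih l c => ih l fun a l1 => ih l1 fun b l2 =>
      force (Nat.pow 2 k) fun w => force (Nat.pow 2 w) fun pw => c (Tr.N w pw a b) l2) k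

/-- compare the leaves with the list -/
noncomputable def cmp (t : Tr) : List ℕ → (List ℕ → Bool) → Bool :=
  @Tr.rec (fun _ => List ℕ → (List ℕ → Bool) → Bool)
    (fun v l c => @List.rec ℕ (fun _ => Bool) (@Bool.rec (fun _ => Bool) false (c []) (Nat.beq v 0))
      (fun v' l' _ => @Bool.rec (fun _ => Bool) false (c l') (Nat.beq v v')) l)
    (fun _ _ _ _ il ir l c => il l fun l1 => ir l1 c) t

/-- the list is empty -/
noncomputable def nil (l : List ℕ) : Bool := @List.rec ℕ (fun _ => Bool) true (fun _ _ _ => false) l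

/-- the check: `rows'` is obtained from `rows` by the moves -/
noncomputable def check (k : ℕ) (rows : List ℕ) (mv : List Mv) (rows' : List ℕ) : Bool :=
  bld k rows fun T rest => and (nil rest) (force (Nat.pow 2 k) fun W => run W mv T fun T' => cmp T' rows' nil)

end Pool.Agent.V8H64.Ck
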