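import Pool.Agent.V8H64.Ck.Inv2

/-!
# Mod 2 homology spheres and graph isomorphisms
-/

set_option autoImplicit false

noncomputable section

namespace Pool.Agent.V8H64.Ck

open Module Pool.Agent.W907.SG Pool.Agent.N504.RS.Two
open Pool.Agent.W907.SM (lk)
open Pool.Agent.R782.Bal (tr2 mem_KK_tr beta_tr bd_tr)
open Pool.Agent.V8H86.LT (map_symm_map map_map_symm)

section iso

variable {V U : Type} [Fintype V] [Fintype U] [LinearOrder V] [LinearOrder U] (e : V ≃ U)

/-- transport of chains -/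
def T2 : (Finset U → ZMod 2) ≃ₗ[ZMod 2] (Finset V → ZMod 2) where
  toFun c T := c (T.map e.toEmbedding)
  invFun c T := c (T.map e.symm.toEmbedding)
  left_inv c := by
    funext T
    show c ((T.map e.symm.toEmbedding).map e.toEmbedding) = c T
    rw [map_symm_map]
  right_inv c := by
    funext T
    show c ((T.map e.toEmbedding).map e.symm.toEmbedding) = c T
    rw [map_map_symm]
  map_add' c d := rfl
  map_smul' r c := rfl

theorem T2_apply (c : Finset U → ZMod 2) (T : Finset V) : T2 e c T = c (T.map e.toEmbedding) := rfl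

theorem bd_T2 (c : Finset U → ZMod 2) : bd (ZMod 2) (T2 e c) = T2 e (bd (ZMod 2) c) := by
  funext T
  rw [bd_tr, T2_apply, bd_tr]
  refine Finset.sum_equiv e (fun v => by simp) fun v _ => ?_
  rw [T2_apply, Finset.map_insert]
  rfl

theorem KK_T2 (G : SimpleGraph V) (H : SimpleGraph U) (he : ∀ a b, H.Adj (e a) (e b) ↔ G.Adj a b) (A : Set V)
    (i : ℕ) (c : Finset U → ZMod 2) : T2 e c ∈ KK G tr2 A ∅ i ↔ c ∈ KK H tr2 (e '' A) ∅ i := by
  have hq : ∀ T : Finset V, (G.IsClique (T : Set V) ∧ (T : Set V) ⊆ A ∧ T.card = i) ↔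
      (H.IsClique ((T.map e.toEmbedding : Finset U) : Set U) ∧
        ((T.map e.toEmbedding : Finset U) : Set U) ⊆ e '' A ∧ (T.map e.toEmbedding).card = i) := by
    intro T
    rw [Finset.card_map]
    refine and_congr ?_ (and_congr ?_ Iff.rfl)
    · constructor
      · intro h x hx y hy hxy
        rw [Finset.mem_coe, Finset.mem_map] at hx hy
        obtain ⟨a, ha, rfl⟩ := hx
        obtain ⟨b, hb, rfl⟩ := hy
        exact (he a b).2 (h ha hb (fun h' => hxy (by rw [h'])))
      · intro h a ha b hb hab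
        refine (he a b).1 (h ?_ ?_ (fun h' => hab (e.injective h')))
        · rw [Finset.mem_coe, Finset.mem_map]
          exact ⟨a, ha, rfl⟩
        · rw [Finset.mem_coe, Finset.mem_map]
          exact ⟨b, hb, rfl⟩
    · rw [Finset.coe_map]
      show _ ↔ e '' (T : Set V) ⊆ e '' A
      rw [Set.image_subset_image_iff e.injective]
  rw [mem_KK_tr, mem_KK_tr]
  constructor
  · intro h1 T hT
    have h3 := h1 (T.map e.symm.toEmbedding) (by
      rw [hq, map_symm_map]
      exact hT)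
    rwa [T2_apply, map_symm_map] at h3
  · intro h1 T hT
    rw [T2_apply, h1 _ (by rwa [← hq])]

theorem beta_equiv2 (G : SimpleGraph V) (H : SimpleGraph U) (he : ∀ a b, H.Adj (e a) (e b) ↔ G.Adj a b)
    (A : Set V) (i : ℕ) : beta G tr2 A ∅ i = beta H tr2 (e '' A) ∅ i := by
  have hK : ∀ i, KK G tr2 A ∅ i =
      (KK H tr2 (e '' A) ∅ i).map (T2 e : (Finset U → ZMod 2) →ₗ[ZMod 2] _) := by
    intro i
    ext c
    rw [Submodule.mem_map]
    constructor
    · intro hc
      refine ⟨(T2 e).symm c, ?_, (T2 e).apply_symm_apply c⟩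
      rw [← KK_T2 e G H he, LinearEquiv.apply_symm_apply]
      exact hc
    · rintro ⟨d, hd, rfl⟩
      exact (KK_T2 e G H he A i d).2 hd
  have hZ : ZZ G tr2 A ∅ i =
      (ZZ H tr2 (e '' A) ∅ i).map (T2 e : (Finset U → ZMod 2) →ₗ[ZMod 2] _) := by
    ext c
    rw [Submodule.mem_map]
    constructor
    · rintro ⟨h1, h2⟩
      refine ⟨(T2 e).symm c, ⟨?_, ?_⟩, (T2 e).apply_symm_apply c⟩
      · rw [SetLike.mem_coe, ← KK_T2 e G H he, LinearEquiv.apply_symm_apply]
        exact h1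
      · rw [SetLike.mem_coe, LinearMap.mem_ker]
        have h3 := bd_T2 e ((T2 e).symm c)
        rw [LinearEquiv.apply_symm_apply] at h3
        have h4 : bd (ZMod 2) c = 0 := h2
        rw [h4] at h3
        exact (T2 e).map_eq_zero_iff.1 h3.symm
    · rintro ⟨d, ⟨h1, h2⟩, rfl⟩
      refine ⟨(KK_T2 e G H he A i d).2 h1, ?_⟩
      rw [SetLike.mem_coe, LinearMap.mem_ker]
      have h4 : bd (ZMod 2) d = 0 := h2
      show bd (ZMod 2) (T2 e d) = 0
      rw [bd_T2, h4, map_zero]
  have hB : BB G tr2 A ∅ i =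
      (BB H tr2 (e '' A) ∅ i).map (T2 e : (Finset U → ZMod 2) →ₗ[ZMod 2] _) := by
    unfold BB
    rw [hK (i + 1)]
    ext c
    simp only [Submodule.mem_map]
    constructor
    · rintro ⟨_, ⟨d, hd, rfl⟩, rfl⟩
      exact ⟨bd (ZMod 2) d, ⟨d, hd, rfl⟩, (bd_T2 e d).symm⟩
    · rintro ⟨_, ⟨d, hd, rfl⟩, rfl⟩
      exact ⟨T2 e d, ⟨d, hd, rfl⟩, bd_T2 e d⟩
  unfold beta
  rw [hZ, hB, LinearEquiv.finrank_map_eq, LinearEquiv.finrank_map_eq]

/-- mod `2` homology spheres are invariant under isomorphisms -/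
theorem hsph2_iso {k : ℕ} {G : SimpleGraph V} {H : SimpleGraph U} (f : G ≃g H) (h : HSph2 k G) : HSph2 k H := by
  intro S hS i
  have he : ∀ a b, H.Adj (f.toEquiv a) (f.toEquiv b) ↔ G.Adj a b := fun a b => f.map_adj_iff
  have h1 := h (S.map f.toEquiv.symm.toEmbedding) (by
    intro x hx y hy hxy
    rw [Finset.mem_coe, Finset.mem_map] at hx hy
    obtain ⟨a, ha, rfl⟩ := hx
    obtain ⟨b, hb, rfl⟩ := hy
    rw [← he]
    show H.Adj (f.toEquiv (f.toEquiv.symm a)) (f.toEquiv (f.toEquiv.symm b))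
    rw [Equiv.apply_symm_apply, Equiv.apply_symm_apply]
    exact hS ha hb (fun h' => hxy (by rw [h']))) i
  rw [Finset.card_map, beta_equiv2 f.toEquiv G H he] at h1
  rw [← h1]
  congr 1
  ext u
  rw [Set.mem_image]
  constructor
  · intro hu
    refine ⟨f.toEquiv.symm u, fun a ha => ?_, Equiv.apply_symm_apply _ _⟩
    rw [Finset.mem_map] at ha
    obtain ⟨b, hb, rfl⟩ := ha
    rw [← he]
    show H.Adj (f.toEquiv (f.toEquiv.symm u)) (f.toEquiv (f.toEquiv.symm b))
    rw [Equiv.apply_symm_apply, Equiv.apply_symm_apply]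
    exact hu b hb
  · rintro ⟨v, hv, rfl⟩
    intro b hb
    have h3 := hv (f.toEquiv.symm b) (by
      rw [Finset.mem_map]
      exact ⟨b, hb, rfl⟩)
    rw [← he, Equiv.apply_symm_apply] at h3
    exact h3

end iso

end Pool.Agent.V8H64.Ck
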